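import Pool.Agent.W886.LS.Stm0
import Pool.Agent.W900.CH.NELev
import Pool.Agent.H620R2.Gauge.U2

/-!
# The assembly
-/

set_option autoImplicit false

namespace Pool.Agent.W886.LS

open MeasureTheory Filter Pool.Agent.NPC Pool.Agent.H620R2.Gauge Pool.Agent.H622R2.Exp
open Pool.Agent.W900.CH
open Pool.Agent.H628R3.RO (randomOracle)

/-- few changes: the padded language is not in linear space -/
theorem pad_far (hM : S_MEAS) (hE : S_EVT) (hA : S_ASY) (hL : S_LOC) {g : ℕ → ℝ}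
    (hg : ∀ ε : ℝ, 0 < ε → ∃ᶠ n : ℕ in atTop, g n ≤ 2 ^ (ε * n)) :
    ∀ᵐ O ∂randomOracle, ∀ A : Oracle, Close g O A →
      ¬ LinSpace A (padLang A) ∧ ¬ NLinSpace A (padLang A) := by
  obtain ⟨U, hU, h1, h2⟩ := hL
  have h3 : ∀ Φ ∈ U, ∀ᵐ O ∂randomOracle, ∀ A : Oracle, Close g O A →
      A ∉ {A : Oracle | ∀ y, Φ A y ↔ y ∈ padLang A} := by
    intro Φ hΦ
    obtain ⟨c, hc⟩ := h2 Φ hΦ
    apply hM
    intro n₁ δ hδ
    obtain ⟨s, n, n', h4, h5, h6, h7, h8⟩ := hA c g hg n₁ δ hδ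
    obtain ⟨E, h9, h10⟩ := hE Φ c s n n' h5 h6 h7 hc
    refine ⟨n', h4, E, h9, le_trans (mul_le_mul_of_nonneg_right h10 ?_) h8⟩
    positivity
  have h4 := (ae_ball_iff hU).2 h3
  filter_upwards [h4] with O hO A hA
  constructor
  · intro h
    obtain ⟨Φ, hΦ, h5⟩ := h1 A (padLang A) (Or.inl h)
    exact hO Φ hΦ A hA fun y => (h5 y).symm
  · intro h
    obtain ⟨Φ, hΦ, h5⟩ := h1 A (padLang A) (Or.inr h)
    exact hO Φ hΦ A hA fun y => (h5 y).symm

/-- many changes: nondeterministic exponential time with linear exponent is in linear space -/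
theorem close_NE (hSt : S_STG) (hSp : S_SPM) (hMj : S_MAJ) (hN : S_NEL) {g : ℕ → ℝ}
    (hg : ¬ ∀ ε : ℝ, 0 < ε → ∃ᶠ n : ℕ in atTop, g n ≤ 2 ^ (ε * n)) (O : Oracle) :
    ∃ A : Oracle, Close g O A ∧ ∀ L, InNTime Lin A L → LinSpace A L := by
  classical
  push Not at hg
  obtain ⟨ε, hε, hg⟩ := hg
  obtain ⟨m, K₀, hm, hsp⟩ := hSp (ε / 2) (half_pos hε)
  have h1 := CC.poly_countable
  obtain ⟨al, hal⟩ := exists_alg
  have h2 : Countable Alg := inferInstance
  have h3 : Nonempty (Alg × ℕ) := ⟨(al 0, 0)⟩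
  obtain ⟨u, hu⟩ := exists_surjective_nat (Alg × ℕ)
  set qq : ℕ → Polynomial ℕ := fun c => Polynomial.C c * (Polynomial.X + 1) with hqq
  have hqL : ∀ c, qq c ∈ Lin := fun c => ⟨c, rfl⟩
  set Q : ℕ → ℕ → (ℕ → Bool) → Prop := fun e x A => ∃ w : List Bool,
    w.length ≤ 2 ^ (qq (u e).2).eval (str x).length ∧
      (u e).1.out (fun y => A (idx y)) (pairBits w (str x)) = some [true] with hQ
  obtain ⟨K, hK, hst⟩ := hSt m K₀ Q hm (by
    intro e
    obtain ⟨d, hd⟩ := hN (u e).1 (qq (u e).2) (hqL _)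
    exact ⟨d, fun x A h => hd x A h⟩)
  obtain ⟨A', hA1, hA2⟩ := hst (num O)
  have hnum : num (fun y => A' (idx y)) = A' := by
    funext i
    simp only [num, idx_str]
  refine ⟨fun y => A' (idx y), ?_, ?_⟩
  · have h4 := (tendsto_pow_atTop_atTop_of_one_lt (by norm_num : 1 < 2)).comp
      (tendsto_add_atTop_nat 1) |>.eventually (hsp K hK)
    unfold Close
    filter_upwards [h4, hg, eventually_ge_atTop 1] with n h5 h6 h7
    have h8 := dist_le_of_off (O := O) (A := fun y => A' (idx y))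
      (T := {y | ∃ e x w, w < (x + e + 2) ^ (3 * K e) ∧ idx y = cdm m K e x w})
      (fun y hy => by
        have h9 := hA1 (idx y) (fun e x w hw h => hy ⟨e, x, w, hw, h⟩)
        rw [h9]
        simp only [num, str_idx]) n
    have h10 : (dist O (fun y => A' (idx y)) n : ℝ) ≤
        (((Finset.range (2 ^ (n + 1))).filter (fun y => ∃ e x w,
          w < (x + e + 2) ^ (3 * K e) ∧ y = cdm m K e x w)).card : ℝ) := by
      refine (Nat.cast_le.2 h8).trans (le_of_eq ?_)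
      congr 3
      funext i
      simp only [Set.mem_ofPred_eq, idx_str]
    refine h10.trans ((le_trans h5 ?_).trans h6.le)
    have h11 : (((fun a : ℕ => 2 ^ a) ∘ fun a => a + 1) n : ℕ) = 2 ^ (n + 1) := rfl
    rw [h11]
    push_cast
    rw [← Real.rpow_natCast, ← Real.rpow_mul (by norm_num)]
    apply Real.rpow_le_rpow_of_exponent_le (by norm_num)
    push_cast
    have h12 : (1 : ℝ) ≤ n := by exact_mod_cast h7
    nlinarith
  · rintro L ⟨V, ⟨M, hM⟩, q, ⟨c, rfl⟩, hV⟩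
    obtain ⟨e, he⟩ := hu (M, c)
    have h4 := hMj A' m K e
    unfold LinSpace
    rw [hnum]
    have h5 : (fun v : Fin 1 → ℕ => str (v 0) ∈ L) = fun v : Fin 1 → ℕ =>
        (v 0 + e + 2) ^ (3 * K e) < 2 * ((Finset.range ((v 0 + e + 2) ^ (3 * K e))).filter
          (fun w => A' (cdm m K e (v 0) w) = true)).card := by
      funext v
      apply propext
      rw [← hA2 e (v 0), hV (str (v 0)), hQ]
      simp only [he, hM, Option.some.injEq, hqq]
    rw [h5]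
    convert h4 using 5

/-- many changes: linear space is in polynomial time -/
theorem close_LinP (hL : S_LOC) (hC : S_CODS) {g : ℕ → ℝ}
    (hg : ¬ ∀ ε : ℝ, 0 < ε → ∃ᶠ n : ℕ in atTop, g n ≤ 2 ^ (n : ℝ) ^ ε) (O : Oracle) :
    ∃ A : Oracle, Close g O A ∧ ∀ L, LinSpace A L ∨ NLinSpace A L → IsP A L := by
  classical
  push Not at hg
  obtain ⟨ε, hε, hg⟩ := hg
  obtain ⟨K, hK'⟩ := exists_K hε
  obtain ⟨U, hU, h1, h2⟩ := hL
  rcases U.eq_empty_or_nonempty with hU0 | hU0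
  · obtain ⟨R, hR, hst⟩ := hC K (fun _ _ _ => False) (fun e => ⟨0, fun x A A' _ => Iff.rfl⟩)
    obtain ⟨A, hA1, hA2⟩ := hst O
    refine ⟨A, close_of_code hε hg hK' hR hA1, fun L hL => ?_⟩
    obtain ⟨Φ, hΦ, -⟩ := h1 A L hL
    rw [hU0] at hΦ
    exact absurd hΦ (Set.notMem_empty _)
  obtain ⟨f, hf⟩ := hU.exists_eq_range hU0
  have h3 : ∀ e, ∃ c : ℕ, ∀ (y : List Bool) (A A' : Oracle),
      (∀ q : List Bool, q.length ≤ c * (y.length + 1) → A q = A' q) → (f e A y ↔ f e A' y) :=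
    fun e => h2 _ (by rw [hf]; exact ⟨e, rfl⟩)
  obtain ⟨R, hR, hst⟩ := hC K (fun e x A => f e A x) (by
    intro e
    obtain ⟨c, hc⟩ := h3 e
    refine ⟨Polynomial.C c * (Polynomial.X + 1), fun x A A' h => hc x A A' fun q hq => ?_⟩
    apply h
    simpa using hq)
  obtain ⟨A, hA1, hA2⟩ := hst O
  refine ⟨A, close_of_code hε hg hK' hR hA1, fun L hL => ?_⟩
  obtain ⟨Φ, hΦ, h5⟩ := h1 A L hL
  rw [hf] at hΦ
  obtain ⟨e, rfl⟩ := hΦ
  refine isP_of_reduces ⟨fun x => code R e x, Pool.Agent.H622R2.polyTime_of_poly_list (CC.poly_code R e), fun x => ?_⟩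
  rw [h5 x]
  exact (hA2 e x).symm

/-- few changes: the parity language is not in the polynomial hierarchy -/
theorem par_far {g : ℕ → ℝ}
    (hg : ∀ ε : ℝ, 0 < ε → ∃ᶠ n : ℕ in atTop, g n ≤ 2 ^ (n : ℝ) ^ ε) :
    ∀ᵐ O ∂randomOracle, ∀ A : Oracle, Close g O A → ¬ IsPHpoly A (parLang A) := by
  have h := ae_far_P (S := {A : Oracle | IsPHpoly A (parLang A)})
    (fun f hf => null_of_frequently f hf _ fun A hA => hA) hg
  exact h

end Pool.Agent.W886.LS
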