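import Pool.Agent.W886.RU.Defs
import Pool.Agent.H622R2.Exp.Defs
import Pool.Agent.H620R2.Gauge.Base

/-!
# Linear space relative to an oracle
-/

set_option autoImplicit false

namespace Pool.Agent.W886.LS

open Pool.Agent.NPC Pool.Agent.H620R2.Gauge Pool.Agent.H622R2.Exp

/-- The oracle as a set of natural numbers: number `i` stands for the string number `i`. -/
def num (A : Oracle) : ℕ → Bool := fun i => A (str i)

/-- Deterministic linear space relative to `A`, in the form of Ritchie's theorem: the predicate on
(the numbers of) the strings is in Grzegorczyk's class `E²` relative to `A`. -/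
def LinSpace (A : Oracle) (L : Set (List Bool)) : Prop :=
  RU.E2Star (num A) 1 (fun v => str (v 0) ∈ L)

/-- Nondeterministic linear space relative to `A`: the string number `x` is in `L` if and only if
the configuration `1` can be reached from the configuration `0` in the graph on the numbers below
`(x + 2) ^ k`, whose edges are given by a predicate `R x c c'` in deterministic linear space
relative to `A`. -/
def NLinSpace (A : Oracle) (L : Set (List Bool)) : Prop :=
  ∃ (R : (Fin 3 → ℕ) → Prop) (k : ℕ), RU.E2Star (num A) 3 R ∧ ∀ x : ℕ, (str x ∈ L ↔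
    Relation.ReflTransGen (fun c c' : ℕ => c < (x + 2) ^ k ∧ c' < (x + 2) ^ k ∧ R ![x, c, c']) 0 1)

/-- The language of the strings `0 ^ s 1 x` such that `x 0 ^ (s |x|)` is in the oracle. -/
def padLang (A : Oracle) : Set (List Bool) :=
  {y | ∃ (s : ℕ) (x : List Bool), y = List.replicate s false ++ true :: x ∧
    A (x ++ List.replicate (s * x.length) false) = true}

/-- numbers for the answers, `w < (x + e + 2) ^ (3 * K e)` -/
def cdm (m : ℕ) (K : ℕ → ℕ) (e x w : ℕ) : ℕ := 2 ^ e * (2 * ((x + e + 2) ^ (m * K e) + w) + 1)

end Pool.Agent.W886.LS
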