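import Pool.Agent.W886.LS.Inc
import Pool.Agent.W327.LSLOC
import Pool.Agent.W391.LSMEAS
import Pool.Agent.W333.LSEVT
import Pool.Agent.W67.LS.ASY
import Pool.Agent.W450.LS.STG
import Pool.Agent.W120.LSSPM
import Pool.Agent.W120.LSMAJ
import Pool.Agent.W891.LS.NEL
import Pool.Agent.W828.LS.CODS
import Pool.Agent.W975.LS.PARL
import Pool.Agent.W675.RU.E2U

/-!
# All parts together
-/

set_option autoImplicit false

namespace Pool.Agent.W886.LS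

open MeasureTheory Filter Pool.Agent.NPC Pool.Agent.H620R2.Gauge Pool.Agent.H622R2.Exp
open Pool.Agent.W900.CH
open Pool.Agent.H628R3.RO (randomOracle)

theorem loc : S_LOC := Pool.Agent.W327.LSLOC.task Pool.Agent.W675.RU.task

theorem few_P {g : ℕ → ℝ}
    (hg : ∀ ε : ℝ, 0 < ε → ∃ᶠ n : ℕ in atTop, g n ≤ 2 ^ (ε * n)) :
    ∀ᵐ O ∂randomOracle, ∀ A : Oracle, Close g O A →
      ∃ L, IsP A L ∧ ¬ LinSpace A L ∧ ¬ NLinSpace A L := by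
  filter_upwards [pad_far Pool.Agent.W391.LSMEAS.task Pool.Agent.W333.LSEVT.task
    Pool.Agent.W67.LS.task loc hg] with O hO A hA
  exact ⟨padLang A, Pool.Agent.W340.LSPADP.task A, hO A hA⟩

theorem few_E {g : ℕ → ℝ}
    (hg : ∀ ε : ℝ, 0 < ε → ∃ᶠ n : ℕ in atTop, g n ≤ 2 ^ (ε * n)) :
    ∀ᵐ O ∂randomOracle, ∀ A : Oracle, Close g O A →
      ∃ L, InTime Lin A L ∧ ¬ LinSpace A L ∧ ¬ NLinSpace A L := by
  filter_upwards [few_P hg] with O hO A hA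
  obtain ⟨L, h1, h2⟩ := hO A hA
  exact ⟨L, isP_inTime h1, h2⟩

theorem many_NE {g : ℕ → ℝ}
    (hg : ¬ ∀ ε : ℝ, 0 < ε → ∃ᶠ n : ℕ in atTop, g n ≤ 2 ^ (ε * n)) (O : Oracle) :
    ∃ A : Oracle, Close g O A ∧ ∀ L, InNTime Lin A L → LinSpace A L :=
  close_NE Pool.Agent.W450.LSSTG.task Pool.Agent.W120.LSSPM.task Pool.Agent.W120.LSMAJ.task
    Pool.Agent.W891.LS.NEL.task hg O

theorem many_NP {g : ℕ → ℝ}
    (hg : ¬ ∀ ε : ℝ, 0 < ε → ∃ᶠ n : ℕ in atTop, g n ≤ 2 ^ (ε * n)) (O : Oracle) :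
    ∃ A : Oracle, Close g O A ∧ ∀ L, IsP A L ∨ IsNP A L → LinSpace A L := by
  obtain ⟨A, h1, h2⟩ := many_NE hg O
  refine ⟨A, h1, fun L hL => h2 L (Pool.Agent.W236.LSNPNE.task A L ?_)⟩
  rcases hL with h | h
  · exact h.isNP
  · exact h

theorem few_lin {g : ℕ → ℝ}
    (hg : ∀ ε : ℝ, 0 < ε → ∃ᶠ n : ℕ in atTop, g n ≤ 2 ^ (n : ℝ) ^ ε) :
    ∀ᵐ O ∂randomOracle, ∀ A : Oracle, Close g O A →
      ∃ L, LinSpace A L ∧ ¬ IsP A L ∧ ¬ IsNP A L ∧ ¬ IsPHpoly A L := by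
  filter_upwards [par_far hg] with O hO A hA
  have h := hO A hA
  exact ⟨parLang A, Pool.Agent.W975.LS.PARL.task A, fun h1 => h h1.isPHpoly,
    fun h1 => h h1.isPH.isPHpoly, h⟩

theorem many_lin {g : ℕ → ℝ}
    (hg : ¬ ∀ ε : ℝ, 0 < ε → ∃ᶠ n : ℕ in atTop, g n ≤ 2 ^ (n : ℝ) ^ ε) (O : Oracle) :
    ∃ A : Oracle, Close g O A ∧ ∀ L, LinSpace A L ∨ NLinSpace A L → IsP A L :=
  close_LinP loc Pool.Agent.W828.LSCODS.task hg O

end Pool.Agent.W886.LS
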