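import Pool.Agent.W886.LS.Asm
import Pool.Agent.W376.RUD0E2
import Pool.Agent.W236.LSNPNE
import Pool.Agent.W340.LSPADP

/-!
# Simple inclusions
-/

set_option autoImplicit false

namespace Pool.Agent.W886.LS

open MeasureTheory Filter Pool.Agent.NPC Pool.Agent.H620R2.Gauge Pool.Agent.H622R2.Exp

/-- polynomial time is in exponential time with linear exponent -/
theorem isP_inTime {A : Oracle} {L : Set (List Bool)} (h : IsP A L) : InTime Lin A L := by
  obtain ⟨V, ⟨M, hM⟩, hL⟩ := h
  obtain ⟨c, hc⟩ := Pool.Agent.W236.LSNPNE.poly_le M.p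
  refine ⟨M, Polynomial.C c * (Polynomial.X + 1), ⟨c, rfl⟩, fun x => ⟨V x, ?_, hL x⟩⟩
  have he : (Polynomial.C c * (Polynomial.X + 1)).eval x.length = c * (x.length + 1) := by
    simp
  rw [he]
  exact M.run_mono A x (V x) _ _ _ (hc x.length) (hM x)

/-- deterministic linear space is in nondeterministic linear space -/
theorem lin_nlin {A : Oracle} {L : Set (List Bool)} (h : LinSpace A L) : NLinSpace A L := by
  obtain ⟨f, hf, hL⟩ := h
  refine ⟨fun v => str (v 0) ∈ L ∧ v 1 = 0 ∧ v 2 = 1, 1, ?_, fun x => ?_⟩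
  · have h1 : RU.E2 (num A) 3 (fun v => f ![v 0]) :=
      Pool.Agent.W376.RUD0E2.c1 (g := fun v => f ![v 0]) (by
        have h0 : (fun v : Fin 1 → ℕ => f ![v 0]) = f := by
          funext v
          congr 1
          funext i
          fin_cases i
          rfl
        rw [h0]
        exact hf) (RU.E2.proj 0)
    have h2 := Pool.Agent.W376.RUD0E2.csub (Pool.Agent.W376.RUD0E2.cconst (A := num A) 3 1)
      (Pool.Agent.W376.RUD0E2.csub (Pool.Agent.W376.RUD0E2.cconst (A := num A) 3 1)
        (Pool.Agent.W376.RUD0E2.cadd (Pool.Agent.W376.RUD0E2.cadd h1 (RU.E2.proj 1))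
          (Pool.Agent.W376.RUD0E2.cadd
            (Pool.Agent.W376.RUD0E2.csub (RU.E2.proj 2)
              (Pool.Agent.W376.RUD0E2.cconst (A := num A) 3 1))
            (Pool.Agent.W376.RUD0E2.csub (Pool.Agent.W376.RUD0E2.cconst (A := num A) 3 1)
              (RU.E2.proj 2)))))
    refine ⟨_, h2, fun v => ?_⟩
    have h3 := hL ![v 0]
    simp only [Matrix.cons_val_zero] at h3
    constructor
    · rintro ⟨h4, h5, h6⟩
      rw [h3.1 h4, h5, h6]
    · intro h4
      by_cases h5 : str (v 0) ∈ L
      · have h6 : ¬ (v 1 = 0 ∧ v 2 = 1) := fun h => h4 ⟨h5, h⟩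
        rw [h3.1 h5]
        omega
      · rw [h3.2 h5]
        omega
  · constructor
    · intro hx
      refine Relation.ReflTransGen.single ⟨by simp, ?_, ?_⟩
      · rw [pow_one]
        omega
      · simpa using hx
    · intro hx
      rcases Relation.ReflTransGen.cases_head hx with h1 | ⟨c, h1, -⟩
      · exact absurd h1 (by norm_num)
      · have h2 := h1.2.2
        simp only [Matrix.cons_val_zero] at h2
        exact h2.1

end Pool.Agent.W886.LS
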