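import Pool.Agent.W886.LS.Defs
import Pool.Agent.W900.CH.PLev

/-!
# Statements
-/

set_option autoImplicit false

namespace Pool.Agent.W886.LS

open MeasureTheory Filter Pool.Agent.NPC Pool.Agent.H620R2.Gauge Pool.Agent.H622R2.Exp
open Pool.Agent.W900.CH
open Pool.Agent.H628R3.RO (randomOracle)

/-- from events to almost all oracles and all changes -/
def S_MEAS : Prop :=
  ∀ (S : Set Oracle) (g : ℕ → ℝ),
    (∀ (n₁ : ℕ) (δ : ℝ), 0 < δ → ∃ n : ℕ, n₁ ≤ n ∧ ∃ E : Finset (Fin (2 ^ (n + 1)) → Bool),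
      (∀ A ∈ S, (fun i : Fin (2 ^ (n + 1)) => A (str i)) ∈ E) ∧
      (E.card : ℝ) * 2 ^ (-(2 : ℝ) ^ (n + 1)) *
        ((2 : ℝ) ^ (n + 1) + 1) ^ (max (g n) 0 + 1) ≤ δ) →
    ∀ᵐ O ∂randomOracle, ∀ A : Oracle, Close g O A → A ∉ S

/-- languages given by local conditions are far from `padLang` -/
def S_EVT : Prop :=
  ∀ (Φ : Oracle → List Bool → Prop) (c s n n' : ℕ), 1 ≤ n → (s + 1) * n ≤ n' →
    c * (n + s + 2) < (s + 1) * n →
    (∀ (y : List Bool) (A A' : Oracle), (∀ q : List Bool, q.length ≤ c * (y.length + 1) →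
      A q = A' q) → (Φ A y ↔ Φ A' y)) →
    ∃ E : Finset (Fin (2 ^ (n' + 1)) → Bool),
      (∀ A : Oracle, (∀ y, Φ A y ↔ y ∈ padLang A) →
        (fun i : Fin (2 ^ (n' + 1)) => A (str i)) ∈ E) ∧
      (E.card : ℝ) * 2 ^ (-(2 : ℝ) ^ (n' + 1)) ≤ (1 / 2) ^ (2 ^ n)

/-- the asymptotic bound: the lengths `n'` with few changes are usable -/
def S_ASY : Prop :=
  ∀ (c : ℕ) (g : ℕ → ℝ), (∀ ε : ℝ, 0 < ε → ∃ᶠ n : ℕ in atTop, g n ≤ 2 ^ (ε * n)) →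
    ∀ (n₁ : ℕ) (δ : ℝ), 0 < δ → ∃ s n n' : ℕ, n₁ ≤ n' ∧ 1 ≤ n ∧ (s + 1) * n ≤ n' ∧
      c * (n + s + 2) < (s + 1) * n ∧
      ((1 / 2 : ℝ)) ^ (2 ^ n) * ((2 : ℝ) ^ (n' + 1) + 1) ^ (max (g n') 0 + 1) ≤ δ

/-- `padLang` is in polynomial time -/
def S_PADP : Prop := ∀ A : Oracle, IsP A (padLang A)

/-- (nondeterministic) linear space is given by countably many local conditions -/
def S_LOC : Prop :=
  ∃ U : Set (Oracle → List Bool → Prop), U.Countable ∧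
    (∀ (A : Oracle) (L : Set (List Bool)), (LinSpace A L ∨ NLinSpace A L) →
      ∃ Φ ∈ U, ∀ y, (y ∈ L ↔ Φ A y)) ∧
    ∀ Φ ∈ U, ∃ c : ℕ, ∀ (y : List Bool) (A A' : Oracle),
      (∀ q : List Bool, q.length ≤ c * (y.length + 1) → A q = A' q) → (Φ A y ↔ Φ A' y)

/-- the stages -/
def S_STG : Prop :=
  ∀ (m K₀ : ℕ) (Q : ℕ → ℕ → (ℕ → Bool) → Prop), 5 ≤ m →
    (∀ e, ∃ d : ℕ, ∀ (x : ℕ) (A : ℕ → Bool), Q e x A → ∃ U : Finset ℕ,
      U.card ≤ (x + 2) ^ d ∧ ∀ A' : ℕ → Bool, (∀ u ∈ U, A' u = A u) → Q e x A') →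
    ∃ K : ℕ → ℕ, (∀ e, K₀ ≤ K e) ∧ ∀ O : ℕ → Bool, ∃ A : ℕ → Bool,
      (∀ y, (∀ e x w, w < (x + e + 2) ^ (3 * K e) → y ≠ cdm m K e x w) → A y = O y) ∧
      ∀ e x, (Q e x A ↔ (x + e + 2) ^ (3 * K e) <
        2 * ((Finset.range ((x + e + 2) ^ (3 * K e))).filter
          (fun w => A (cdm m K e x w) = true)).card)

open Classical in
/-- there are few codes -/
def S_SPM : Prop :=
  ∀ ε : ℝ, 0 < ε → ∃ m K₀ : ℕ, 5 ≤ m ∧ ∀ K : ℕ → ℕ, (∀ e, K₀ ≤ K e) → ∀ᶠ N : ℕ in atTop,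
    (((Finset.range N).filter (fun y => ∃ e x w, w < (x + e + 2) ^ (3 * K e) ∧
      y = cdm m K e x w)).card : ℝ) ≤ (N : ℝ) ^ ε

/-- counting is possible in linear space -/
def S_MAJ : Prop :=
  ∀ (A : ℕ → Bool) (m : ℕ) (K : ℕ → ℕ) (e : ℕ), RU.E2Star A 1 (fun v =>
    (v 0 + e + 2) ^ (3 * K e) < 2 * ((Finset.range ((v 0 + e + 2) ^ (3 * K e))).filter
      (fun w => A (cdm m K e (v 0) w) = true)).card)

/-- certificates for nondeterministic exponential time with linear exponent -/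
def S_NEL : Prop :=
  ∀ (M : Alg), ∀ q ∈ Lin, ∃ d : ℕ, ∀ (x : ℕ) (A : ℕ → Bool),
    (∃ w : List Bool, w.length ≤ 2 ^ q.eval (str x).length ∧
      M.out (fun y => A (idx y)) (pairBits w (str x)) = some [true]) →
    ∃ U : Finset ℕ, U.card ≤ (x + 2) ^ d ∧ ∀ A' : ℕ → Bool, (∀ u ∈ U, A' u = A u) →
      ∃ w : List Bool, w.length ≤ 2 ^ q.eval (str x).length ∧
        M.out (fun y => A' (idx y)) (pairBits w (str x)) = some [true]

/-- the coding lemma for strings -/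
def S_CODS : Prop :=
  ∀ (K : ℕ) (Q : ℕ → List Bool → Oracle → Prop),
    (∀ e, ∃ q : Polynomial ℕ, ∀ (x : List Bool) (A A' : Oracle),
      (∀ y : List Bool, y.length ≤ q.eval x.length → A y = A' y) → (Q e x A ↔ Q e x A')) →
    ∃ R : ℕ → Polynomial ℕ, (∀ e n, (n + e + 1) ^ K ≤ (R e).eval n) ∧
      ∀ O : Oracle, ∃ A : Oracle, (∀ y, (∀ e x, y ≠ code R e x) → A y = O y) ∧
        ∀ e x, (A (code R e x) = true ↔ Q e x A)

/-- the parity language is in linear space -/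
def S_PARL : Prop := ∀ A : Oracle, LinSpace A (parLang A)

/-- `NP ⊆ NE` -/
def S_NPNE : Prop := ∀ (A : Oracle) (L : Set (List Bool)), IsNP A L → InNTime Lin A L

end Pool.Agent.W886.LS
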